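import Mathlib

/-!
# A connected cubic graph with `ir < γ < i < β₀ < Γ < IR`

The graph has 34 vertices. It was found by a computer search: two cubic graphs with 16 and 18 vertices
are joined by a switch of two edges. The proof checks that

* `ir ≤ 8`, `γ = 9`, `i = 10`, `β₀ = 13`, `Γ = 14`, `IR ≥ 15`.

The bounds from one side are given by explicit sets. The bounds from the other side are
checked by the kernel: for `Γ ≤ 14` and `β₀ ≤ 13` one computes bounds `R v` and `A v` for the size of the
irredundant and of the independent sets which are contained in `{v, …, 33}`, for `v = 33, …, 0`, and every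
step uses the bounds of the previous ones in a branching over the vertices; the last step for `Γ`
uses in addition that the set dominates. The bound `γ ≥ 9` follows from `4 ⬝ 8 < 34`, and `i ≥ 10` by a
branching over the vertex which dominates the first vertex that is not yet dominated.
-/

set_option autoImplicit false

namespace Pool.Agent.Results.MP_93f3b8_co.StrictChain

section defs

variable {V : Type} (G : SimpleGraph V)

/-- `w` belongs to the closed neighbourhood `N[v]` of `v` -/
def InNbhd (v w : V) : Prop := w = v ∨ G.Adj v w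

/-- `S` is dominating: every vertex belongs to `N[v]` for some `v ∈ S` -/
def Dominating (S : Finset V) : Prop := ∀ w, ∃ v ∈ S, InNbhd G v w

/-- `S` is independent: no two of its vertices are adjacent -/
def Independent (S : Finset V) : Prop := ∀ v ∈ S, ∀ w ∈ S, ¬ G.Adj v w

/-- `S` is irredundant: every `v ∈ S` has a private neighbour `w`, that is, `w ∈ N[v]` and `w ∉ N[u]`
for all the other `u ∈ S` -/
def Irredundant (S : Finset V) : Prop :=
  ∀ v ∈ S, ∃ w, InNbhd G v w ∧ ∀ u ∈ S, u ≠ v → ¬ InNbhd G u w

/-- the sizes of the sets of vertices with the property `P` -/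
def sizes (P : Finset V → Prop) : Set ℕ := {k | ∃ S, P S ∧ S.card = k}

/-- `ir`: the minimum size of a maximal irredundant set -/
noncomputable def irLower : ℕ := sInf (sizes fun S => Maximal (Irredundant G) S)

/-- `γ`: the minimum size of a dominating set -/
noncomputable def gammaLower : ℕ := sInf (sizes (Dominating G))

/-- `i`: the minimum size of a maximal independent set -/
noncomputable def indLower : ℕ := sInf (sizes fun S => Maximal (Independent G) S)

/-- `β₀`: the maximum size of an independent set -/
noncomputable def indUpper : ℕ := sSup (sizes (Independent G))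

/-- `Γ`: the maximum size of a minimal dominating set -/
noncomputable def gammaUpper : ℕ := sSup (sizes fun S => Minimal (Dominating G) S)

/-- `IR`: the maximum size of an irredundant set -/
noncomputable def irUpper : ℕ := sSup (sizes (Irredundant G))

end defs

section checkers

/-- The branching for irredundant sets. `v`: the present vertex, `m`: the number of remaining vertices,
`L`: the closed neighbourhoods of the chosen vertices, `one`, `two`: the vertices which are covered at
least once and at least twice by them. The value is `true` only if it is impossible to choose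
`need` more vertices. -/
def chk (mask dn R : ℕ → ℕ) : ℕ → ℕ → List ℕ → ℕ → ℕ → ℕ → Bool
  | 0, _, _, _, _, need => need != 0
  | m + 1, v, L, one, two, need =>
    (dn v &&& one != dn v) || (decide (R v < need) ||
      ((!((mask v :: L).all fun M => M &&& (two ||| (one &&& mask v)) != M) ||
          (need != 0 && chk mask dn R m (v + 1) (mask v :: L) (one ||| mask v)
            (two ||| (one &&& mask v)) (need - 1))) &&
        chk mask dn R m (v + 1) L one two need))

/-- The branching for independent sets; `forb`: the vertices which are covered by the chosen ones. -/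
def chkI (mask A : ℕ → ℕ) : ℕ → ℕ → ℕ → ℕ → Bool
  | 0, _, _, need => need != 0
  | m + 1, v, forb, need =>
    decide (A v < need) ||
      ((forb.testBit v ||
          (need != 0 && chkI mask A m (v + 1) (forb ||| mask v) (need - 1))) &&
        chkI mask A m (v + 1) forb need)

/-- The number of the vertices which are not covered. -/
def unc (cov : ℕ) : ℕ := (List.range 34).countP fun u => !cov.testBit u

/-- The branching for independent dominating sets; `cov`: the vertices which are covered by the chosen
ones, `k`: the number of vertices which can still be chosen. -/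
def chkD (mask : ℕ → ℕ) : ℕ → ℕ → ℕ → ℕ → Bool
  | 0, _, cov, k => decide (4 * k < unc cov)
  | m + 1, v, cov, k =>
    decide (4 * k < unc cov) ||
      (if cov.testBit v then chkD mask m (v + 1) cov k
        else k == 0 || (List.range 34).all fun w => !(mask v).testBit w || (cov.testBit w ||
          chkD mask m (v + 1) (cov ||| mask w) (k - 1)))

variable {mask dn R A : ℕ → ℕ}

/-- irredundance in terms of the closed neighbourhoods `mask` -/
def Irr (mask : ℕ → ℕ) (S : Finset ℕ) : Prop :=
  ∀ s ∈ S, ∃ p, (mask s).testBit p = true ∧ ∀ u ∈ S, u ≠ s → (mask u).testBit p = false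

theorem Irr.mono {S T : Finset ℕ} (h : S ⊆ T) (hT : Irr mask T) : Irr mask S := by
  intro s hs
  obtain ⟨p, h1, h2⟩ := hT s (h hs)
  exact ⟨p, h1, fun u hu => h2 u (h hu)⟩

theorem card_split (S : Finset ℕ) (v : ℕ) :
    (S.filter (v ≤ ·)).card = (if v ∈ S then 1 else 0) + (S.filter (v + 1 ≤ ·)).card := by
  have h : S.filter (v ≤ ·) = S.filter (· = v) ∪ S.filter (v + 1 ≤ ·) := by
    ext x
    simp only [Finset.mem_filter, Finset.mem_union]
    constructor
    · rintro ⟨h1, h2⟩
      rcases Nat.eq_or_lt_of_le h2 with h | h
      · exact Or.inl ⟨h1, h.symm⟩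
      · exact Or.inr ⟨h1, h⟩
    · rintro (⟨h1, h2⟩ | ⟨h1, h2⟩)
      · exact ⟨h1, h2.ge⟩
      · exact ⟨h1, by omega⟩
  rw [h, Finset.card_union_of_disjoint]
  · congr 1
    rw [Finset.filter_eq']
    split_ifs <;> simp
  · rw [Finset.disjoint_filter]
    intro x _ h1 h2
    omega

theorem chk_sound (S : Finset ℕ) (n : ℕ) (hS : ∀ s ∈ S, s < n) (hirr : Irr mask S)
    (hdn : ∀ v u, (dn v).testBit u = true → ∃ s ∈ S, s < v ∧ (mask s).testBit u = true) :
    ∀ (m v : ℕ) (L : List ℕ) (one two need : ℕ), v + m = n →
      (∀ w, v ≤ w → (S.filter (w ≤ ·)).card ≤ R w) →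
      (∀ M ∈ L, ∃ s ∈ S, s < v ∧ M = mask s) →
      (∀ u, one.testBit u = true ↔ ∃ s ∈ S, s < v ∧ (mask s).testBit u = true) →
      (∀ u, two.testBit u = true → ∃ s ∈ S, ∃ t ∈ S, s ≠ t ∧ (mask s).testBit u = true ∧
        (mask t).testBit u = true) →
      chk mask dn R m v L one two need = true → (S.filter (v ≤ ·)).card < need := by
  intro m
  induction m with
  | zero =>
    intro v L one two need hv _ _ _ _ h
    have h1 : S.filter (v ≤ ·) = ∅ := by
      rw [Finset.filter_eq_empty_iff]
      intro x hx
      have := hS x hx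
      omega
    rw [h1, Finset.card_empty]
    simp only [chk, bne_iff_ne, ne_eq] at h
    omega
  | succ m ih =>
    intro v L one two need hv hR hL hone htwo h
    rw [chk] at h
    rcases Bool.or_eq_true _ _ ▸ h with h | h
    · exfalso
      rw [bne_iff_ne] at h
      apply h
      apply Nat.eq_of_testBit_eq
      intro u
      rw [Nat.testBit_and]
      cases hu : (dn v).testBit u
      · rfl
      · obtain ⟨s, h1, h2, h3⟩ := hdn v u hu
        rw [(hone u).2 ⟨s, h1, h2, h3⟩]
        rfl
    rcases Bool.or_eq_true _ _ ▸ h with h | h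
    · exact (hR v le_rfl).trans_lt (of_decide_eq_true h)
    rw [Bool.and_eq_true] at h
    obtain ⟨h1, h2⟩ := h
    have hR' : ∀ w, v + 1 ≤ w → (S.filter (w ≤ ·)).card ≤ R w := fun w hw => hR w (by omega)
    rw [card_split]
    by_cases hvS : v ∈ S
    · rw [if_pos hvS]
      have hone' : ∀ u, (one ||| mask v).testBit u = true ↔
          ∃ s ∈ S, s < v + 1 ∧ (mask s).testBit u = true := by
        intro u
        rw [Nat.testBit_or, Bool.or_eq_true, hone]
        constructor
        · rintro (⟨s, h3, h4, h5⟩ | h3)
          · exact ⟨s, h3, by omega, h5⟩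
          · exact ⟨v, hvS, by omega, h3⟩
        · rintro ⟨s, h3, h4, h5⟩
          rcases Nat.lt_succ_iff_lt_or_eq.1 h4 with h6 | h6
          · exact Or.inl ⟨s, h3, h6, h5⟩
          · subst h6
            exact Or.inr h5
      have htwo' : ∀ u, (two ||| (one &&& mask v)).testBit u = true → ∃ s ∈ S, ∃ t ∈ S, s ≠ t ∧
          (mask s).testBit u = true ∧ (mask t).testBit u = true := by
        intro u hu
        rw [Nat.testBit_or, Bool.or_eq_true, Nat.testBit_and, Bool.and_eq_true, hone] at hu
        rcases hu with hu | ⟨⟨s, h3, h4, h5⟩, h6⟩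
        · exact htwo u hu
        · exact ⟨s, h3, v, hvS, by omega, h5, h6⟩
      have hL' : ∀ M ∈ mask v :: L, ∃ s ∈ S, s < v + 1 ∧ M = mask s := by
        intro M hM
        rcases List.mem_cons.1 hM with h3 | h3
        · exact ⟨v, hvS, by omega, h3⟩
        · obtain ⟨s, h4, h5, h6⟩ := hL M h3
          exact ⟨s, h4, by omega, h6⟩
      have hall : ((mask v :: L).all fun M => M &&& (two ||| (one &&& mask v)) != M) = true := by
        rw [List.all_eq_true]
        intro M hM
        rw [bne_iff_ne]
        intro hcon
        obtain ⟨s, h3, -, rfl⟩ := hL' M hM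
        obtain ⟨p, h4, h5⟩ := hirr s h3
        have h6 : (two ||| (one &&& mask v)).testBit p = true := by
          have := congrArg (fun x => x.testBit p) hcon
          simp only [Nat.testBit_and, h4, Bool.true_and] at this
          exact this
        obtain ⟨a, ha, b, hb, hab, h7, h8⟩ := htwo' p h6
        have ha' : a = s := by
          by_contra hne
          rw [h5 a ha hne] at h7
          exact absurd h7 (by decide)
        have hb' : b = s := by
          by_contra hne
          rw [h5 b hb hne] at h8
          exact absurd h8 (by decide)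
        exact hab (ha'.trans hb'.symm)
      rw [hall, Bool.not_true, Bool.false_or, Bool.and_eq_true, bne_iff_ne] at h1
      have := ih (v + 1) _ _ _ _ (by omega) hR' hL' hone' htwo' h1.2
      have := h1.1
      omega
    · rw [if_neg hvS, Nat.zero_add]
      refine ih (v + 1) _ _ _ need (by omega) hR' ?_ ?_ htwo h2
      · intro M hM
        obtain ⟨s, h4, h5, h6⟩ := hL M hM
        exact ⟨s, h4, by omega, h6⟩
      · intro u
        rw [hone]
        constructor
        · rintro ⟨s, h3, h4, h5⟩
          exact ⟨s, h3, by omega, h5⟩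
        · rintro ⟨s, h3, h4, h5⟩
          rcases Nat.lt_succ_iff_lt_or_eq.1 h4 with h6 | h6
          · exact ⟨s, h3, h6, h5⟩
          · subst h6
            exact absurd h3 hvS

/-- independence in terms of the closed neighbourhoods `mask` -/
def Ind (mask : ℕ → ℕ) (S : Finset ℕ) : Prop :=
  ∀ s ∈ S, ∀ t ∈ S, s ≠ t → (mask s).testBit t = false

theorem Ind.mono {S T : Finset ℕ} (h : S ⊆ T) (hT : Ind mask T) : Ind mask S :=
  fun s hs t ht => hT s (h hs) t (h ht)

theorem chkI_sound (S : Finset ℕ) (n : ℕ) (hS : ∀ s ∈ S, s < n) (hind : Ind mask S) :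
    ∀ (m v forb need : ℕ), v + m = n →
      (∀ w, v ≤ w → (S.filter (w ≤ ·)).card ≤ A w) →
      (∀ u, v ≤ u → forb.testBit u = true → u ∉ S) →
      chkI mask A m v forb need = true → (S.filter (v ≤ ·)).card < need := by
  intro m
  induction m with
  | zero =>
    intro v forb need hv _ _ h
    have h1 : S.filter (v ≤ ·) = ∅ := by
      rw [Finset.filter_eq_empty_iff]
      intro x hx
      have := hS x hx
      omega
    rw [h1, Finset.card_empty]
    simp only [chkI, bne_iff_ne, ne_eq] at h
    omega
  | succ m ih =>
    intro v forb need hv hA hf h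
    rw [chkI] at h
    rcases Bool.or_eq_true _ _ ▸ h with h | h
    · exact (hA v le_rfl).trans_lt (of_decide_eq_true h)
    rw [Bool.and_eq_true] at h
    obtain ⟨h1, h2⟩ := h
    have hA' : ∀ w, v + 1 ≤ w → (S.filter (w ≤ ·)).card ≤ A w := fun w hw => hA w (by omega)
    rw [card_split]
    by_cases hvS : v ∈ S
    · rw [if_pos hvS]
      have h3 : forb.testBit v = false := by
        cases h4 : forb.testBit v
        · rfl
        · exact absurd hvS (hf v le_rfl h4)
      rw [h3, Bool.false_or, Bool.and_eq_true, bne_iff_ne] at h1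
      have := ih (v + 1) _ _ (by omega) hA' (fun u hu hu' => by
        rw [Nat.testBit_or, Bool.or_eq_true] at hu'
        rcases hu' with h5 | h5
        · exact hf u (by omega) h5
        · intro h6
          rw [hind v hvS u h6 (by omega)] at h5
          exact absurd h5 (by decide)) h1.2
      have := h1.1
      omega
    · rw [if_neg hvS, Nat.zero_add]
      exact ih (v + 1) _ need (by omega) hA' (fun u hu => hf u (by omega)) h2

theorem unc_le (hcard : ∀ s < 34, ((Finset.range 34).filter
      fun u => (mask s).testBit u = true).card ≤ 4)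
    (S : Finset ℕ) (hS : ∀ s ∈ S, s < 34) (cov : ℕ)
    (h : ∀ u < 34, cov.testBit u = false → ∃ s ∈ S, (mask s).testBit u = true) :
    unc cov ≤ 4 * S.card := by
  have h1 : unc cov = ((Finset.range 34).filter fun u => cov.testBit u = false).card := by
    rw [unc, List.countP_eq_length_filter]
    have : (Finset.range 34).filter (fun u => cov.testBit u = false) =
        ((List.range 34).filter fun u => !cov.testBit u).toFinset := by
      ext u
      simp
    rw [this, List.toFinset_card_of_nodup (List.nodup_range.filter _)]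
  rw [h1]
  calc ((Finset.range 34).filter fun u => cov.testBit u = false).card
      ≤ (S.biUnion fun s => (Finset.range 34).filter fun u => (mask s).testBit u = true).card := by
        apply Finset.card_le_card
        intro u hu
        rw [Finset.mem_filter, Finset.mem_range] at hu
        obtain ⟨s, h2, h3⟩ := h u hu.1 hu.2
        exact Finset.mem_biUnion.2 ⟨s, h2, Finset.mem_filter.2 ⟨Finset.mem_range.2 hu.1, h3⟩⟩
    _ ≤ ∑ s ∈ S, ((Finset.range 34).filter fun u => (mask s).testBit u = true).card :=
        Finset.card_biUnion_le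
    _ ≤ ∑ _s ∈ S, 4 := Finset.sum_le_sum fun s hs => hcard s (hS s hs)
    _ = 4 * S.card := by rw [Finset.sum_const, smul_eq_mul, mul_comm]

theorem chkD_sound (hcard : ∀ s < 34, ((Finset.range 34).filter
      fun u => (mask s).testBit u = true).card ≤ 4)
    (hsymm : ∀ u < 34, ∀ v < 34, (mask u).testBit v = true → (mask v).testBit u = true)
    (S : Finset ℕ) (hS : ∀ s ∈ S, s < 34) (hind : Ind mask S)
    (hdom : ∀ u < 34, ∃ s ∈ S, (mask s).testBit u = true) :
    ∀ (m v cov k : ℕ) (C : Finset ℕ), v + m = 34 → C ⊆ S → (S \ C).card ≤ k →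
      (∀ u, cov.testBit u = true ↔ ∃ s ∈ C, (mask s).testBit u = true) →
      chkD mask m v cov k = true → False := by
  have hun : ∀ (cov k : ℕ) (C : Finset ℕ), (S \ C).card ≤ k →
      (∀ u, cov.testBit u = true ↔ ∃ s ∈ C, (mask s).testBit u = true) → ¬ 4 * k < unc cov := by
    intro cov k C hk hcov hlt
    have := unc_le hcard (S \ C) (fun s hs => hS s (Finset.mem_sdiff.1 hs).1) cov (by
      intro u hu hc
      obtain ⟨s, h1, h2⟩ := hdom u hu
      refine ⟨s, Finset.mem_sdiff.2 ⟨h1, fun h3 => ?_⟩, h2⟩
      rw [(hcov u).2 ⟨s, h3, h2⟩] at hc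
      exact absurd hc (by decide))
    omega
  intro m
  induction m with
  | zero =>
    intro v cov k C _ _ hk hcov h
    rw [chkD] at h
    exact hun cov k C hk hcov (of_decide_eq_true h)
  | succ m ih =>
    intro v cov k C hv hC hk hcov h
    rw [chkD] at h
    rcases Bool.or_eq_true _ _ ▸ h with h | h
    · exact hun cov k C hk hcov (of_decide_eq_true h)
    split_ifs at h with hc
    · exact ih (v + 1) cov k C (by omega) hC hk hcov h
    · obtain ⟨s, h1, h2⟩ := hdom v (by omega)
      have h3 : s ∉ C := fun h3 => hc ((hcov v).2 ⟨s, h3, h2⟩)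
      have h4 : (S \ C).card = (S \ insert s C).card + 1 := by
        rw [Finset.sdiff_insert, Finset.card_erase_of_mem (Finset.mem_sdiff.2 ⟨h1, h3⟩)]
        have : 0 < (S \ C).card := Finset.card_pos.2 ⟨s, Finset.mem_sdiff.2 ⟨h1, h3⟩⟩
        omega
      have h5 : cov.testBit s = false := by
        cases h6 : cov.testBit s
        · rfl
        · obtain ⟨t, h7, h8⟩ := (hcov s).1 h6
          have h9 : t ≠ s := fun h => h3 (h ▸ h7)
          rw [hind t (hC h7) s h1 h9] at h8
          exact absurd h8 (by decide)
      rcases Bool.or_eq_true _ _ ▸ h with h | h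
      · rw [beq_iff_eq] at h
        omega
      rw [List.all_eq_true] at h
      have h6 := h s (List.mem_range.2 (hS s h1))
      rw [hsymm s (hS s h1) v (by omega) h2, h5, Bool.not_true, Bool.false_or, Bool.false_or] at h6
      refine ih (v + 1) _ _ (insert s C) (by omega) (Finset.insert_subset h1 hC) (by omega) ?_ h6
      intro u
      rw [Nat.testBit_or, Bool.or_eq_true, hcov]
      constructor
      · rintro (⟨t, h7, h8⟩ | h7)
        · exact ⟨t, Finset.mem_insert_of_mem h7, h8⟩
        · exact ⟨s, Finset.mem_insert_self s C, h7⟩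
      · rintro ⟨t, h7, h8⟩
        rcases Finset.mem_insert.1 h7 with h9 | h9
        · subst h9
          exact Or.inr h8
        · exact Or.inl ⟨t, h9, h8⟩

end checkers

section data

/-- the entry with number `v` of a list -/
def nth : List ℕ → ℕ → ℕ
  | [], _ => 0
  | a :: _, 0 => a
  | _ :: l, v + 1 => nth l v

/-- the closed neighbourhoods of the vertices `0, …, 33`, as binary numbers -/
def mask : ℕ → ℕ := nth [15, 51, 2309, 105, 24594, 170, 1224, 480, 900, 164608, 25664, 71684, 47104,
  13328, 50192, 53760, 854016, 201458176, 2949120, 1900544, 14155776, 52690944, 47185920, 30408704,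
  60817408, 56623104, 469893120, 738328576, 3556769792, 13555990528, 7784628224, 12079595520,
  14495514624, 15569256448]

/-- the vertices whose closed neighbourhoods are contained in `{0, …, v - 1}` -/
def dn : ℕ → ℕ := nth [0, 0, 0, 0, 1, 1, 3, 11, 43, 171, 427, 491, 495, 495, 8687, 9727, 62975, 65023,
  65535, 65535, 131071, 655359, 917503, 917503, 1966079, 10354687, 66977791, 66977791, 67108863,
  134217727, 268435455, 268435455, 536870911, 1610612735]

/-- bounds for the sizes of the irredundant sets which are contained in `{v, …, 33}` -/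
def R : ℕ → ℕ := nth [15, 15, 14, 14, 14, 14, 14, 13, 12, 11, 11, 10, 10, 10, 9, 8, 8, 7, 6, 6, 6, 6, 5,
  5, 5, 4, 3, 3, 3, 3, 2, 2, 2, 1]

/-- bounds for the sizes of the independent sets which are contained in `{v, …, 33}` -/
def A : ℕ → ℕ := nth [13, 13, 13, 12, 12, 12, 11, 11, 10, 10, 9, 9, 8, 8, 7, 7, 6, 6, 6, 6, 5, 5, 5, 5,
  4, 4, 3, 3, 2, 2, 2, 2, 1, 1]

theorem R_check : ∀ v < 34, R (v + 1) ≤ R v ∧ (R v = R (v + 1) + 1 ∨
    chk mask (fun _ => 0) R (33 - v) (v + 1) [mask v] (mask v) 0 (R v) = true) := by
  decide +kernel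

theorem main_check : chk mask dn R 34 0 [] 0 0 15 = true := by
  decide +kernel

theorem A_check : ∀ v < 34, A (v + 1) ≤ A v ∧ (A v = A (v + 1) + 1 ∨
    chkI mask A (33 - v) (v + 1) (mask v) (A v) = true) := by
  decide +kernel

theorem i_check : chkD mask 34 0 0 9 = true := by
  decide +kernel

theorem mask_symm : ∀ u < 34, ∀ v < 34, (mask u).testBit v = true → (mask v).testBit u = true := by
  decide +kernel

theorem mask_self : ∀ v < 34, (mask v).testBit v = true := by
  decide +kernel

theorem mask_card : ∀ s < 34, ((Finset.range 34).filter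
    fun u => (mask s).testBit u = true).card ≤ 4 := by
  decide +kernel

theorem dn_check : ∀ v < 34, dn v < 2 ^ 34 ∧ ∀ u < 34, (dn v).testBit u = true →
    ∀ s < 34, (mask s).testBit u = true → s < v := by
  decide +kernel

theorem nth_of_le (l : List ℕ) (v : ℕ) (h : l.length ≤ v) : nth l v = 0 := by
  induction l generalizing v with
  | nil => rfl
  | cons a l ih =>
    cases v with
    | zero => simp at h
    | succ v => exact ih v (by simpa using h)

theorem filter_eq_empty {T : Finset ℕ} (hT : ∀ s ∈ T, s < 34) {v : ℕ} (hv : 34 ≤ v) :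
    T.filter (v ≤ ·) = ∅ := by
  rw [Finset.filter_eq_empty_iff]
  intro x hx
  have := hT x hx
  omega

theorem R_bound {T : Finset ℕ} (hT : ∀ s ∈ T, s < 34) (h : Irr mask T) :
    ∀ k v : ℕ, 34 ≤ v + k → (T.filter (v ≤ ·)).card ≤ R v := by
  intro k
  induction k with
  | zero =>
    intro v hv
    rw [filter_eq_empty hT (by omega)]
    exact Nat.zero_le _
  | succ k ih =>
    intro v hv
    rcases Nat.lt_or_ge v 34 with hv' | hv'
    swap
    · rw [filter_eq_empty hT hv']
      exact Nat.zero_le _
    obtain ⟨h1, h2⟩ := R_check v hv'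
    rw [card_split]
    have h3 := ih (v + 1) (by omega)
    by_cases hvT : v ∈ T
    · rw [if_pos hvT]
      rcases h2 with h2 | h2
      · omega
      · have h4 : T.filter (v ≤ ·) ⊆ T := Finset.filter_subset _ _
        have h5 := chk_sound (dn := fun _ => 0) (T.filter (v ≤ ·)) 34 (fun s hs => hT s (h4 hs))
          (h.mono h4) (fun w u hu => by simp at hu) (33 - v) (v + 1) [mask v] (mask v) 0 (R v)
          (by omega) (fun w hw => (Finset.card_le_card
            (Finset.filter_subset_filter _ h4)).trans (ih w (by omega)))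
          (fun M hM => ⟨v, Finset.mem_filter.2 ⟨hvT, le_rfl⟩, by omega, by simpa using hM⟩)
          (fun u => ⟨fun hu => ⟨v, Finset.mem_filter.2 ⟨hvT, le_rfl⟩, by omega, hu⟩, by
            rintro ⟨s, h6, h7, h8⟩
            rw [Finset.mem_filter] at h6
            have h9 : s = v := by omega
            rw [← h9]
            exact h8⟩)
          (fun u hu => by simp at hu) h2
        have h6 : (T.filter (v ≤ ·)).filter (v + 1 ≤ ·) = T.filter (v + 1 ≤ ·) := by
          rw [Finset.filter_filter]
          apply Finset.filter_congr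
          intro x _
          omega
        rw [h6] at h5
        omega
    · rw [if_neg hvT]
      omega

theorem A_bound {T : Finset ℕ} (hT : ∀ s ∈ T, s < 34) (h : Ind mask T) :
    ∀ k v : ℕ, 34 ≤ v + k → (T.filter (v ≤ ·)).card ≤ A v := by
  intro k
  induction k with
  | zero =>
    intro v hv
    rw [filter_eq_empty hT (by omega)]
    exact Nat.zero_le _
  | succ k ih =>
    intro v hv
    rcases Nat.lt_or_ge v 34 with hv' | hv'
    swap
    · rw [filter_eq_empty hT hv']
      exact Nat.zero_le _
    obtain ⟨h1, h2⟩ := A_check v hv'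
    rw [card_split]
    have h3 := ih (v + 1) (by omega)
    by_cases hvT : v ∈ T
    · rw [if_pos hvT]
      rcases h2 with h2 | h2
      · omega
      · have h5 := chkI_sound T 34 hT h (33 - v) (v + 1) (mask v) (A v) (by omega)
          (fun w hw => ih w (by omega))
          (fun u hu hu' hu'' => by
            rw [h v hvT u hu'' (by omega)] at hu'
            exact absurd hu' (by decide)) h2
        omega
    · rw [if_neg hvT]
      omega

end data

section graph

/-- The graph: two vertices are adjacent if the second one is an element of `mask` of the first one. -/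
def G : SimpleGraph (Fin 34) := SimpleGraph.fromRel fun v w => (mask v).testBit w = true

theorem adj_iff (v w : Fin 34) : G.Adj v w ↔ v ≠ w ∧ (mask v).testBit w = true := by
  rw [G, SimpleGraph.fromRel_adj]
  constructor
  · rintro ⟨h1, h2 | h2⟩
    · exact ⟨h1, h2⟩
    · exact ⟨h1, mask_symm w w.2 v v.2 h2⟩
  · rintro ⟨h1, h2⟩
    exact ⟨h1, Or.inl h2⟩

theorem inNbhd_iff (v w : Fin 34) : InNbhd G v w ↔ (mask v).testBit w = true := by
  rw [InNbhd, adj_iff]
  constructor
  · rintro (h | h)
    · rw [h]
      exact mask_self v v.2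
    · exact h.2
  · intro h
    by_cases hvw : v = w
    · exact Or.inl hvw.symm
    · exact Or.inr ⟨hvw, h⟩

instance : DecidableRel G.Adj := fun v w => decidable_of_iff _ (adj_iff v w).symm

instance : DecidableRel (InNbhd G) := fun v w => decidable_of_iff _ (inNbhd_iff v w).symm

instance (S : Finset (Fin 34)) : Decidable (Dominating G S) := by
  unfold Dominating
  infer_instance

instance (S : Finset (Fin 34)) : Decidable (Independent G S) := by
  unfold Independent
  infer_instance

instance (S : Finset (Fin 34)) : Decidable (Irredundant G S) := by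
  unfold Irredundant
  infer_instance

variable {S : Finset (Fin 34)}

/-- the set of the numbers of the elements of `S` -/
def nat (S : Finset (Fin 34)) : Finset ℕ := S.map Fin.valEmbedding

theorem mem_nat {x : ℕ} : x ∈ nat S ↔ ∃ a ∈ S, a.val = x := by
  simp [nat]

theorem nat_lt : ∀ s ∈ nat S, s < 34 := by
  intro s hs
  obtain ⟨a, -, rfl⟩ := mem_nat.1 hs
  exact a.2

theorem card_nat : (nat S).card = S.card := Finset.card_map _

theorem filter_zero (T : Finset ℕ) : T.filter (0 ≤ ·) = T :=
  Finset.filter_true_of_mem fun _ _ => Nat.zero_le _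

theorem irr_nat (h : Irredundant G S) : Irr mask (nat S) := by
  intro s hs
  obtain ⟨a, ha, rfl⟩ := mem_nat.1 hs
  obtain ⟨w, h1, h2⟩ := h a ha
  refine ⟨w.val, (inNbhd_iff a w).1 h1, ?_⟩
  intro u hu hne
  obtain ⟨b, hb, rfl⟩ := mem_nat.1 hu
  have h3 := h2 b hb fun h => hne (congrArg Fin.val h)
  rw [inNbhd_iff] at h3
  exact Bool.eq_false_iff.2 h3

theorem ind_nat (h : Independent G S) : Ind mask (nat S) := by
  intro s hs t ht hne
  obtain ⟨a, ha, rfl⟩ := mem_nat.1 hs
  obtain ⟨b, hb, rfl⟩ := mem_nat.1 ht
  have h3 := h a ha b hb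
  rw [adj_iff] at h3
  apply Bool.eq_false_iff.2
  intro h4
  exact h3 ⟨fun h => hne (congrArg Fin.val h), h4⟩

theorem dom_nat (h : Dominating G S) : ∀ u < 34, ∃ s ∈ nat S, (mask s).testBit u = true := by
  intro u hu
  obtain ⟨v, h1, h2⟩ := h ⟨u, hu⟩
  exact ⟨v.val, mem_nat.2 ⟨v, h1, rfl⟩, (inNbhd_iff v ⟨u, hu⟩).1 h2⟩

theorem irredundant_of_minimal (h : Minimal (Dominating G) S) : Irredundant G S := by
  intro v hv
  by_contra hcon
  push Not at hcon
  have h1 : Dominating G (S.erase v) := by
    intro w
    obtain ⟨u, h2, h3⟩ := h.1 w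
    by_cases huv : u = v
    · subst huv
      obtain ⟨t, h4, h5, h6⟩ := hcon w h3
      exact ⟨t, Finset.mem_erase.2 ⟨h5, h4⟩, h6⟩
    · exact ⟨u, Finset.mem_erase.2 ⟨huv, h2⟩, h3⟩
  have h2 := h.2 h1 (Finset.erase_subset v S) hv
  exact (Finset.mem_erase.1 h2).1 rfl

theorem dominating_of_maximal (h : Maximal (Independent G) S) : Dominating G S := by
  intro w
  by_contra hcon
  push Not at hcon
  have hw : w ∉ S := fun h1 => hcon w h1 (Or.inl rfl)
  have h1 : Independent G (insert w S) := by
    intro a ha b hb hab
    rcases Finset.mem_insert.1 ha with h2 | h2 <;> rcases Finset.mem_insert.1 hb with h3 | h3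
    · subst h2
      subst h3
      exact hab.ne rfl
    · subst h2
      exact hcon b h3 (Or.inr hab.symm)
    · subst h3
      exact hcon a h2 (Or.inr hab)
    · exact h.1 a h2 b h3 hab
  exact hw (h.2 h1 (Finset.subset_insert w S) (Finset.mem_insert_self w S))

theorem maximal_of_dominating (h : Independent G S) (hd : Dominating G S) :
    Maximal (Independent G) S := by
  refine ⟨h, fun T hT hST w hw => ?_⟩
  obtain ⟨v, h1, h2⟩ := hd w
  rcases h2 with h2 | h2
  · rw [h2]
    exact h1
  · exact absurd h2 (hT v (hST h1) w hw)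

theorem minimal_of_irredundant (h : Irredundant G S) (hd : Dominating G S) :
    Minimal (Dominating G) S := by
  refine ⟨hd, fun T hT hTS v hv => ?_⟩
  obtain ⟨w, h1, h2⟩ := h v hv
  obtain ⟨u, h3, h4⟩ := hT w
  by_cases huv : u = v
  · exact huv ▸ h3
  · exact absurd h4 (h2 u (hTS h3) huv)

theorem irredundant_mono {T : Finset (Fin 34)} (h : S ⊆ T) (hT : Irredundant G T) :
    Irredundant G S := by
  intro v hv
  obtain ⟨w, h1, h2⟩ := hT v (h hv)
  exact ⟨w, h1, fun u hu => h2 u (h hu)⟩

theorem maximal_irredundant (h : Irredundant G S) (hx : ∀ x, x ∉ S → ¬ Irredundant G (insert x S)) :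
    Maximal (Irredundant G) S := by
  refine ⟨h, fun T hT hST x hxT => ?_⟩
  by_contra hxS
  exact hx x hxS (irredundant_mono (Finset.insert_subset hxT hST) hT)

theorem nine_le (h : Dominating G S) : 9 ≤ S.card := by
  have h1 := unc_le mask_card (nat S) nat_lt 0 fun u hu _ => dom_nat h u hu
  rw [card_nat] at h1
  have h2 : unc 0 = 34 := by decide +kernel
  omega

theorem ten_le (h : Independent G S) (hd : Dominating G S) : 10 ≤ S.card := by
  by_contra hcon
  refine chkD_sound mask_card mask_symm (nat S) nat_lt (ind_nat h) (dom_nat hd) 34 0 0 9 ∅ rfl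
    (Finset.empty_subset _) ?_ (fun u => by simp) i_check
  rw [Finset.sdiff_empty, card_nat]
  omega

theorem le_thirteen (h : Independent G S) : S.card ≤ 13 := by
  have := A_bound nat_lt (ind_nat h) 34 0 le_rfl
  rw [filter_zero, card_nat] at this
  exact this

theorem le_fourteen (h : Irredundant G S) (hd : Dominating G S) : S.card ≤ 14 := by
  have h1 := chk_sound (dn := dn) (R := R) (nat S) 34 nat_lt (irr_nat h) ?_ 34 0 [] 0 0 15 rfl
    (fun w _ => R_bound nat_lt (irr_nat h) 34 w (by omega)) (fun M hM => by simp at hM)
    (fun u => by simp) (fun u hu => by simp at hu) main_check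
  · rw [filter_zero, card_nat] at h1
    omega
  · intro v u hu
    rcases Nat.lt_or_ge v 34 with hv | hv
    · obtain ⟨h2, h3⟩ := dn_check v hv
      have hu' : u < 34 := by
        by_contra hcon
        rw [Nat.testBit_lt_two_pow (h2.trans_le (Nat.pow_le_pow_right (by norm_num)
          (not_lt.1 hcon)))] at hu
        exact absurd hu (by decide)
      obtain ⟨s, h4, h5⟩ := dom_nat hd u hu'
      exact ⟨s, h4, h3 u hu' hu s (nat_lt s h4) h5, h5⟩
    · rw [dn, nth_of_le _ v (by simpa using hv)] at hu
      simp at hu

/-- a maximal irredundant set -/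
def setIr : Finset (Fin 34) := {2, 8, 12, 15, 18, 19, 26, 27}

/-- a dominating set -/
def setGamma : Finset (Fin 34) := {1, 5, 9, 10, 11, 20, 21, 28, 29}

/-- a maximal independent set -/
def setI : Finset (Fin 34) := {0, 4, 5, 6, 9, 11, 20, 21, 28, 29}

/-- an independent set -/
def setBeta : Finset (Fin 34) := {0, 4, 5, 6, 8, 11, 15, 17, 18, 20, 24, 28, 29}

/-- a minimal dominating set -/
def setUpperGamma : Finset (Fin 34) := {0, 2, 3, 6, 10, 11, 12, 13, 17, 20, 21, 26, 32, 33}

/-- an irredundant set -/
def setUpperIr : Finset (Fin 34) := {0, 2, 3, 6, 10, 11, 12, 13, 17, 20, 22, 23, 26, 32, 33}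

theorem setIr_max : Maximal (Irredundant G) setIr := by
  apply maximal_irredundant <;> decide +kernel

theorem setGamma_dom : Dominating G setGamma := by decide +kernel

theorem setI_max : Maximal (Independent G) setI := by
  apply maximal_of_dominating <;> decide +kernel

theorem setBeta_ind : Independent G setBeta := by decide +kernel

theorem setUpperGamma_min : Minimal (Dominating G) setUpperGamma := by
  apply minimal_of_irredundant <;> decide +kernel

theorem setUpperIr_irr : Irredundant G setUpperIr := by decide +kernel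

theorem bdd (P : Finset (Fin 34) → Prop) : BddAbove (sizes P) := by
  refine ⟨34, ?_⟩
  rintro k ⟨S, -, rfl⟩
  exact (Finset.card_le_univ S).trans_eq (Fintype.card_fin 34)

theorem connected : G.Connected := by
  have h : ∀ v : ℕ, ∀ hv : v < 34, G.Reachable 0 ⟨v, hv⟩ := by
    intro v
    induction v using Nat.strong_induction_on with
    | _ v ih =>
      intro hv
      rcases Nat.eq_zero_or_pos v with h0 | h0
      · subst h0
        exact SimpleGraph.Reachable.refl _
      · have h1 : ∀ w : Fin 34, 0 < w.val → ∃ u : Fin 34, u.val < w.val ∧ G.Adj u w := by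
          decide +kernel
        obtain ⟨u, h2, h3⟩ := h1 ⟨v, hv⟩ h0
        exact (ih u.val h2 u.2).trans h3.reachable
  rw [SimpleGraph.connected_iff_exists_forall_reachable]
  exact ⟨0, fun w => h w.val w.2⟩

theorem cubic (v : Fin 34) : (G.neighborSet v).ncard = 3 := by
  have h1 : ∀ v : Fin 34, (Finset.univ.filter fun w => G.Adj v w).card = 3 := by decide +kernel
  rw [← h1 v, ← Set.ncard_coe_finset]
  congr 1
  ext w
  simp

end graph

/-- **There is a connected cubic graph with `ir < γ < i < β₀ < Γ < IR`**; it has 34 vertices, and the last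
five parameters are `9`, `10`, `13`, `14` and at least `15`. -/
theorem result : ∃ G : SimpleGraph (Fin 34), G.Connected ∧ (∀ v, (G.neighborSet v).ncard = 3) ∧
    irLower G < gammaLower G ∧ gammaLower G < indLower G ∧ indLower G < indUpper G ∧
    indUpper G < gammaUpper G ∧ gammaUpper G < irUpper G := by
  refine ⟨G, connected, cubic, ?_, ?_, ?_, ?_, ?_⟩
  · have h1 : irLower G ≤ 8 := Nat.sInf_le ⟨setIr, setIr_max, by decide⟩
    have h2 : 9 ≤ gammaLower G := by
      refine le_csInf (show (sizes (Dominating G)).Nonempty from ⟨_, setGamma, setGamma_dom, rfl⟩) ?_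
      rintro k ⟨S, hS, rfl⟩
      exact nine_le hS
    omega
  · have h1 : gammaLower G ≤ 9 := Nat.sInf_le ⟨setGamma, setGamma_dom, by decide⟩
    have h2 : 10 ≤ indLower G := by
      refine le_csInf (show (sizes fun S => Maximal (Independent G) S).Nonempty from
        ⟨_, setI, setI_max, rfl⟩) ?_
      rintro k ⟨S, hS, rfl⟩
      exact ten_le hS.1 (dominating_of_maximal hS)
    omega
  · have h1 : indLower G ≤ 10 := Nat.sInf_le ⟨setI, setI_max, by decide⟩
    have h2 : 13 ≤ indUpper G := le_csSup (bdd _) ⟨setBeta, setBeta_ind, by decide⟩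
    omega
  · have h1 : indUpper G ≤ 13 := by
      refine csSup_le (show (sizes (Independent G)).Nonempty from ⟨_, setBeta, setBeta_ind, rfl⟩) ?_
      rintro k ⟨S, hS, rfl⟩
      exact le_thirteen hS
    have h2 : 14 ≤ gammaUpper G := le_csSup (bdd _) ⟨setUpperGamma, setUpperGamma_min, by decide⟩
    omega
  · have h1 : gammaUpper G ≤ 14 := by
      refine csSup_le (show (sizes fun S => Minimal (Dominating G) S).Nonempty from
        ⟨_, setUpperGamma, setUpperGamma_min, rfl⟩) ?_
      rintro k ⟨S, hS, rfl⟩
      exact le_fourteen (irredundant_of_minimal hS) hS.1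
    have h2 : 15 ≤ irUpper G := le_csSup (bdd _) ⟨setUpperIr, setUpperIr_irr, by decide⟩
    omega

end Pool.Agent.Results.MP_93f3b8_co.StrictChain
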